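import Pool.Agent.Q2.PIM.Stm

/-!
# Project PIM, job CHN
-/

set_option autoImplicit false

namespace Pool.Agent.Q68.PIM

open Pool.Agent.Q2.PIM Module

theorem half {k M : Type} [Field k] [AddCommGroup M] [Module k M] [FiniteDimensional k M]
    (T X Y : Module.End k M) (h1 : T * T = 0) (h2 : T * X = X * T) (h3 : Y = X * T) :
    2 * finrank k (LinearMap.range Y) ≤ finrank k (LinearMap.range X) := by
  have hN : ∀ y ∈ LinearMap.range X, T y ∈ LinearMap.range X := by
    rintro _ ⟨z, rfl⟩
    exact ⟨T z, (LinearMap.congr_fun h2 z).symm⟩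
  let g : LinearMap.range X →ₗ[k] LinearMap.range X := T.restrict hN
  have hg : ∀ y : LinearMap.range X, ((g y : LinearMap.range X) : M) = T y := fun y => rfl
  have e1 : LinearMap.range Y = (LinearMap.range g).map (LinearMap.range X).subtype := by
    apply le_antisymm
    · rintro _ ⟨z, rfl⟩
      refine ⟨g ⟨X z, z, rfl⟩, ⟨_, rfl⟩, ?_⟩
      change T (X z) = Y z
      rw [h3, ← h2]
      rfl
    · rintro _ ⟨_, ⟨⟨_, z, rfl⟩, rfl⟩, rfl⟩
      refine ⟨z, ?_⟩
      change Y z = T (X z)
      rw [h3, ← h2]
      rfl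
  have e2 : finrank k (LinearMap.range Y) ≤ finrank k (LinearMap.range g) := by
    rw [e1]
    exact Submodule.finrank_map_le _ _
  have e3 : LinearMap.range g ≤ LinearMap.ker g := by
    rintro _ ⟨z, rfl⟩
    rw [LinearMap.mem_ker]
    apply Subtype.ext
    exact LinearMap.congr_fun h1 (z : M)
  have e4 := Submodule.finrank_mono e3
  have e5 := LinearMap.finrank_range_add_finrank_ker g
  omega

theorem t_CHN : S_CHN := by
  intro k M _ _ _ _ n T X h0 hs hsq hc
  have key : ∀ j : Fin (n + 1), 2 ^ (j : ℕ) * finrank k (LinearMap.range (X j)) ≤ finrank k M := by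
    intro j
    induction j using Fin.induction with
    | zero =>
      rw [Fin.val_zero, pow_zero, one_mul]
      exact Submodule.finrank_le _
    | succ i ih =>
      have h1 := half (T i) (X i.castSucc) (X i.succ) (hsq i) (hc i) (hs i)
      rw [Fin.val_succ, pow_succ, mul_assoc]
      refine le_trans (Nat.mul_le_mul_left _ h1) ?_
      rwa [Fin.val_castSucc] at ih
  have h := key (Fin.last n)
  rwa [Fin.val_last] at h

end Pool.Agent.Q68.PIM
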