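import Pool.Agent.Q2.PIM.Stm

/-!
# Project PIM, job WTI
-/

set_option autoImplicit false

namespace Pool.Agent.Q68.PIM

open Pool.Agent.Q2.PIM Module

theorem proj_apply {k M : Type} [Field k] [AddCommGroup M] [Module k M]
    (T : Fin 6 → Module.End k M) (μ ν : Fin 6 → Bool) (v : M)
    (hv : ∀ i, T i v = if ν i then v else 0) (l : List (Fin 6)) :
    ((l.map fun i => if μ i then T i else 1 - T i).prod : Module.End k M) v =
      if ∀ i ∈ l, μ i = ν i then v else 0 := by
  induction l with
  | nil => simp
  | cons j l ih =>
    rw [List.map_cons, List.prod_cons, Module.End.mul_apply, ih]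
    by_cases h : ∀ i ∈ l, μ i = ν i
    · rw [if_pos h]
      have h1 : (if μ j then T j else 1 - T j) v = if μ j = ν j then v else 0 := by
        have h2 := hv j
        cases hm : μ j <;> cases hn : ν j <;> simp [hn] at h2 ⊢ <;> simp [h2]
      rw [h1]
      by_cases h3 : μ j = ν j
      · rw [if_pos h3, if_pos]
        intro i hi
        rcases List.mem_cons.mp hi with h4 | h4
        · rw [h4]
          exact h3
        · exact h i h4
      · rw [if_neg h3, if_neg]
        intro h4
        exact h3 (h4 j List.mem_cons_self)
    · rw [if_neg h, map_zero, if_neg]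
      intro h4
      exact h fun i hi => h4 i (List.mem_cons_of_mem j hi)

theorem t_WTI : S_WTI := by
  intro k M _ _ _ _ T I O hO
  classical
  choose v hvI hv0 hvT using hO
  have hli : LinearIndependent k fun μ : O => (⟨v μ.1 μ.2, hvI μ.1 μ.2⟩ : I) := by
    rw [Fintype.linearIndependent_iff]
    intro g hg μ
    have h1 : ∑ ν : O, g ν • v ν.1 ν.2 = 0 := by
      have := congrArg (Submodule.subtype I) hg
      rw [map_sum, map_zero] at this
      exact this
    have h2 := congrArg
      (((List.finRange 6).map fun i => if μ.1 i then T i else 1 - T i).prod : Module.End k M) h1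
    rw [map_sum, map_zero] at h2
    have h3 : ∀ ν : O, (((List.finRange 6).map fun i => if μ.1 i then T i else 1 - T i).prod :
        Module.End k M) (g ν • v ν.1 ν.2) = if ν = μ then g ν • v ν.1 ν.2 else 0 := by
      intro ν
      rw [map_smul, proj_apply T μ.1 ν.1 _ (hvT ν.1 ν.2)]
      by_cases h : ν = μ
      · rw [if_pos h, if_pos]
        intro i _
        rw [h]
      · rw [if_neg h, if_neg, smul_zero]
        intro h4
        apply h
        apply Subtype.ext
        funext i
        exact (h4 i (List.mem_finRange i)).symm
    rw [Finset.sum_congr rfl fun ν _ => h3 ν, Finset.sum_ite_eq' Finset.univ,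
      if_pos (Finset.mem_univ μ)] at h2
    exact (smul_eq_zero.mp h2).resolve_right (hv0 μ.1 μ.2)
  have h := hli.fintype_card_le_finrank
  rwa [Fintype.card_coe] at h

end Pool.Agent.Q68.PIM
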