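import Pool.Agent.Q2.PIM.Stm

/-!
# Project PIM, job MQ
-/

set_option autoImplicit false

namespace Pool.Agent.Q68.PIM

open Pool.Agent.Q2.PIM

theorem t_MQ : S_MQ := by
  intro S a b hS ha ha2 hb hb2
  have hG1 : ∀ n ∈ {n | (∃ r, n = 2 ^ r) ∧ ∀ d ∈ S, n ∣ d}, n ≤ 2 ^ 17 := by
    rintro n ⟨⟨r, rfl⟩, h⟩
    have h1 := hb _ h
    rw [hb2] at h1
    have h2 : Nat.Coprime (2 ^ r) 3 := Nat.Coprime.pow_left r (by norm_num)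
    exact Nat.le_of_dvd (by norm_num) (h2.dvd_of_dvd_mul_left h1)
  have hG2 : {n | (∃ r, n = 2 ^ r) ∧ ∀ d ∈ S, n ∣ d}.Nonempty :=
    ⟨1, ⟨0, (pow_zero 2).symm⟩, fun d _ => one_dvd d⟩
  have hG3 : BddAbove {n | (∃ r, n = 2 ^ r) ∧ ∀ d ∈ S, n ∣ d} := ⟨2 ^ 17, hG1⟩
  refine ⟨sInf S, sSup {n | (∃ r, n = 2 ^ r) ∧ ∀ d ∈ S, n ∣ d},
    ⟨Nat.sInf_mem hS, fun x hx => Nat.sInf_le hx⟩,
    ⟨Nat.sSup_mem hG2 hG3, fun x hx => le_csSup hG3 hx⟩, ?_⟩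
  have h1 := hG1 _ (Nat.sSup_mem hG2 hG3)
  have h2 := ha _ (Nat.sInf_mem hS)
  omega

end Pool.Agent.Q68.PIM
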