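import Pool.Agent.Q2.PIM.Stm

/-!
# Project PIM, job ORB
-/

set_option autoImplicit false

namespace Pool.Agent.Q68.PIM

open Pool.Agent.Q2.PIM

/-- six bits -/
abbrev B6 := Bool × Bool × Bool × Bool × Bool × Bool

/-- the vector -/
def tv (t : B6) : Fin 6 → Bool := ![t.1, t.2.1, t.2.2.1, t.2.2.2.1, t.2.2.2.2.1, t.2.2.2.2.2]

/-- the moves -/
def mt : Fin 5 → B6 → B6
  | 0, (a, b, c, d, e, f) => if a = b then (!a, !b, c, d, e, f) else (a, b, c, d, e, f)
  | 1, (a, b, c, d, e, f) => if b = c then (a, !b, !c, d, e, f) else (a, b, c, d, e, f)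
  | 2, (a, b, c, d, e, f) => if c = d then (a, b, !c, !d, e, f) else (a, b, c, d, e, f)
  | 3, (a, b, c, d, e, f) => if d = e then (a, b, c, !d, !e, f) else (a, b, c, d, e, f)
  | 4, (a, b, c, d, e, f) => if e = f then (a, b, c, d, !e, !f) else (a, b, c, d, e, f)

theorem mv_tv (i : Fin 5) (t : B6) : mv i (tv t) = tv (mt i t) := by
  obtain ⟨a, b, c, d, e, f⟩ := t
  funext j
  revert a b c d e f
  fin_cases i <;> fin_cases j <;> decide

/-- the words -/
def WL : List (List (Fin 5)) :=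
  [[], [0, 2, 4], [0, 1, 0, 2, 1], [1, 3, 2, 4, 3], [0, 2, 1, 0, 3], [1, 4, 3, 2],
    [2, 3, 2, 1, 4], [0, 1, 2, 3], [1, 2, 3, 4], [3, 2, 1, 0], [4, 3, 2, 1], [0, 1, 2, 3, 4],
    [4, 3, 2, 1, 0]]

/-- the parity -/
def par : B6 → Bool
  | (a, b, c, d, e, f) => xor a (xor b (xor c (xor d (xor e f))))

theorem par_eq : ∀ a b c d e f : Bool,
    (Finset.univ.filter fun i => tv (a, b, c, d, e, f) i = true).card % 2 = 0 →
    par (a, b, c, d, e, f) = false := by
  decide

/-- the elements which are reached -/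
def rch (t : B6) : List B6 := WL.map fun w => w.foldl (fun s i => mt i s) t

theorem chk : ∀ a b c d e f : Bool, par (a, b, c, d, e, f) = false →
    6 ≤ (rch (a, b, c, d, e, f)).dedup.length := by
  decide

theorem t_ORB : S_ORB := by
  intro O hne hev hcl
  obtain ⟨μ, hμ⟩ := hne
  have ht : tv (μ 0, μ 1, μ 2, μ 3, μ 4, μ 5) = μ := by
    funext j
    fin_cases j <;> rfl
  have h1 : ∀ (w : List (Fin 5)) (s : B6), tv s ∈ O → tv (w.foldl (fun s i => mt i s) s) ∈ O := by
    intro w
    induction w with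
    | nil => exact fun s hs => hs
    | cons i w ih =>
      intro s hs
      rw [List.foldl_cons]
      apply ih
      rw [← mv_tv]
      exact hcl _ hs i
  have h2 : 6 ≤ (rch (μ 0, μ 1, μ 2, μ 3, μ 4, μ 5)).dedup.length := by
    apply chk
    apply par_eq
    rw [ht]
    exact hev μ hμ
  rw [← List.card_toFinset] at h2
  refine h2.trans (Finset.card_le_card_of_injOn tv ?_ ?_)
  · intro s hs
    rw [Finset.mem_coe, List.mem_toFinset] at hs
    obtain ⟨w, -, rfl⟩ := List.mem_map.mp hs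
    apply h1
    rw [ht]
    exact hμ
  · intro s _ s' _ h
    obtain ⟨a, b, c, d, e, f⟩ := s
    obtain ⟨a', b', c', d', e', f'⟩ := s'
    have g0 : a = a' := congrFun h 0
    have g1 : b = b' := congrFun h 1
    have g2 : c = c' := congrFun h 2
    have g3 : d = d' := congrFun h 3
    have g4 : e = e' := congrFun h 4
    have g5 : f = f' := congrFun h 5
    rw [g0, g1, g2, g3, g4, g5]

end Pool.Agent.Q68.PIM
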